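import Mathlib

/-!
For `T = {(3,4), (15,16)}` one has `γ_{3,4} = 4`, `γ_{15,16} = 16 = Γ_T ^ 2`, so that `(15,16)` is
not in `R'_T`, and yet `(15,16)` is in `S_T(n)` for infinitely many `n`.
-/

namespace Pool.Agent.Results.MP_c389b3_nt.BoundaryPair

/-- The `(α, β)`-walk with starting values `w_1 = a₁`, `w_2 = a₂` (indices start at `1`; the value
at index `0` is a dummy). -/
def walk (α β a₁ a₂ : ℕ) : ℕ → ℕ
  | 0 => 0
  | 1 => a₁
  | 2 => a₂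
  | k + 3 => α * walk α β a₁ a₂ (k + 2) + β * walk α β a₁ a₂ (k + 1)

/-- `s^{α,β}(n)`: the largest index `k ≥ 1` at which some `(α, β)`-walk with positive starting
values is equal to `n`. -/
noncomputable def s (p : ℕ × ℕ) (n : ℕ) : ℕ :=
  sSup {k | 1 ≤ k ∧ ∃ a₁ a₂, 1 ≤ a₁ ∧ 1 ≤ a₂ ∧ walk p.1 p.2 a₁ a₂ k = n}

/-- `γ_{α,β} = (α + √(α² + 4β)) / 2`. -/
noncomputable def γ (p : ℕ × ℕ) : ℝ := ((p.1 : ℝ) + √((p.1 : ℝ) ^ 2 + 4 * p.2)) / 2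

/-- `s_T(n)`, the maximum of `s^{α,β}(n)` over `(α, β) ∈ T`. -/
noncomputable def sMax (T : Set (ℕ × ℕ)) (n : ℕ) : ℕ := sSup ((fun p => s p n) '' T)

/-- `S_T(n)`, the pairs of `T` attaining the maximum `s_T(n)`. -/
def SSet (T : Set (ℕ × ℕ)) (n : ℕ) : Set (ℕ × ℕ) := {p | p ∈ T ∧ s p n = sMax T n}

/-- `Γ_T`, the minimum of `γ_{α,β}` over `(α, β) ∈ T`. -/
noncomputable def Γ (T : Set (ℕ × ℕ)) : ℝ := sInf (γ '' T)

/-- `R'_T`, the pairs of `T` with `γ_{α,β} < Γ_T ^ 2`. -/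
def R' (T : Set (ℕ × ℕ)) : Set (ℕ × ℕ) := {p | p ∈ T ∧ γ p < Γ T ^ 2}

/-- The set `T = {(3,4), (15,16)}`. -/
def T₀ : Set (ℕ × ℕ) := {(3, 4), (15, 16)}

theorem walk_pos {α β a₁ a₂ : ℕ} (hα : 1 ≤ α) (h₁ : 1 ≤ a₁) (h₂ : 1 ≤ a₂) (k : ℕ) :
    1 ≤ walk α β a₁ a₂ (k + 1) ∧ 1 ≤ walk α β a₁ a₂ (k + 2) := by
  induction k with
  | zero => exact ⟨h₁, h₂⟩
  | succ k ih =>
    refine ⟨ih.2, ?_⟩
    show 1 ≤ α * walk α β a₁ a₂ (k + 2) + β * walk α β a₁ a₂ (k + 1)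
    have := Nat.mul_le_mul hα ih.2
    omega

theorem walk_shift (α β a₁ a₂ i k : ℕ) :
    walk α β (walk α β a₁ a₂ (i + 1)) (walk α β a₁ a₂ (i + 2)) (k + 1) =
      walk α β a₁ a₂ (i + k + 1) ∧
    walk α β (walk α β a₁ a₂ (i + 1)) (walk α β a₁ a₂ (i + 2)) (k + 2) =
      walk α β a₁ a₂ (i + k + 2) := by
  induction k with
  | zero => exact ⟨rfl, rfl⟩
  | succ k ih =>
    refine ⟨ih.2, ?_⟩
    show α * _ + β * _ = _
    rw [ih.1, ih.2]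
    rfl

theorem le_walk {α β a₁ a₂ : ℕ} (hα : 1 ≤ α) (hβ : 1 ≤ β) (h₁ : 1 ≤ a₁) (h₂ : 1 ≤ a₂) (k : ℕ) :
    k + 1 ≤ walk α β a₁ a₂ (k + 2) := by
  induction k with
  | zero => exact h₂
  | succ k ih =>
    show k + 1 + 1 ≤ α * walk α β a₁ a₂ (k + 2) + β * walk α β a₁ a₂ (k + 1)
    have h3 := (walk_pos (β := β) hα h₁ h₂ k).1
    have h4 := Nat.mul_le_mul hβ h3
    have h5 : walk α β a₁ a₂ (k + 2) ≤ α * walk α β a₁ a₂ (k + 2) := Nat.le_mul_of_pos_left _ hα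
    omega

theorem walk_lt {α β a₁ a₂ : ℕ} (hα : 1 ≤ α) (hβ : 1 ≤ β) (h₁ : 1 ≤ a₁) (h₂ : 1 ≤ a₂) (k : ℕ) :
    walk α β a₁ a₂ (k + 2) < walk α β a₁ a₂ (k + 3) := by
  show walk α β a₁ a₂ (k + 2) < α * walk α β a₁ a₂ (k + 2) + β * walk α β a₁ a₂ (k + 1)
  have h3 := (walk_pos (β := β) hα h₁ h₂ k).1
  have h4 := Nat.mul_le_mul hβ h3
  have h5 : walk α β a₁ a₂ (k + 2) ≤ α * walk α β a₁ a₂ (k + 2) := Nat.le_mul_of_pos_left _ hα
  omega

theorem bdd (p : ℕ × ℕ) (hα : 1 ≤ p.1) (hβ : 1 ≤ p.2) (n : ℕ) :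
    BddAbove {k | 1 ≤ k ∧ ∃ a₁ a₂, 1 ≤ a₁ ∧ 1 ≤ a₂ ∧ walk p.1 p.2 a₁ a₂ k = n} := by
  refine ⟨n + 1, ?_⟩
  rintro k ⟨hk, a₁, a₂, h₁, h₂, rfl⟩
  obtain ⟨j, rfl⟩ | h : (∃ j, k = j + 2) ∨ k = 1 := by
    rcases Nat.lt_or_ge k 2 with h | h
    · right; omega
    · left; exact ⟨k - 2, by omega⟩
  · have := le_walk hα hβ h₁ h₂ j
    omega
  · omega

/-- Closed form of the `(3,4)`-walk. -/
theorem walk34 (a b k : ℕ) :
    5 * (walk 3 4 a b (k + 1) : ℤ) = (a + b) * 4 ^ k + (4 * a - b) * (-1) ^ k ∧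
    5 * (walk 3 4 a b (k + 2) : ℤ) = (a + b) * 4 ^ (k + 1) + (4 * a - b) * (-1) ^ (k + 1) := by
  induction k with
  | zero => constructor <;> simp [walk] <;> ring
  | succ k ih =>
    refine ⟨ih.2, ?_⟩
    have h : (walk 3 4 a b (k + 1 + 2) : ℤ) =
        3 * (walk 3 4 a b (k + 2) : ℤ) + 4 * (walk 3 4 a b (k + 1) : ℤ) := by
      have : walk 3 4 a b (k + 1 + 2) = 3 * walk 3 4 a b (k + 2) + 4 * walk 3 4 a b (k + 1) := rfl
      rw [this]; push_cast; ring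
    rw [h]
    have h1 := ih.1
    have h2 := ih.2
    have : 5 * (3 * (walk 3 4 a b (k + 2) : ℤ) + 4 * (walk 3 4 a b (k + 1) : ℤ)) =
        3 * (5 * (walk 3 4 a b (k + 2) : ℤ)) + 4 * (5 * (walk 3 4 a b (k + 1) : ℤ)) := by ring
    rw [this, h1, h2]
    ring

/-- Closed form of the `(15,16)`-walk started at `1, 1`. -/
theorem walk1516 (k : ℕ) :
    17 * (walk 15 16 1 1 (k + 1) : ℤ) = 2 * 16 ^ k + 15 * (-1) ^ k ∧
    17 * (walk 15 16 1 1 (k + 2) : ℤ) = 2 * 16 ^ (k + 1) + 15 * (-1) ^ (k + 1) := by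
  induction k with
  | zero => constructor <;> simp [walk]
  | succ k ih =>
    refine ⟨ih.2, ?_⟩
    have h : (walk 15 16 1 1 (k + 1 + 2) : ℤ) =
        15 * (walk 15 16 1 1 (k + 2) : ℤ) + 16 * (walk 15 16 1 1 (k + 1) : ℤ) := by
      have : walk 15 16 1 1 (k + 1 + 2) =
        15 * walk 15 16 1 1 (k + 2) + 16 * walk 15 16 1 1 (k + 1) := rfl
      rw [this]; push_cast; ring
    rw [h]
    have h1 := ih.1
    have h2 := ih.2
    have : 17 * (15 * (walk 15 16 1 1 (k + 2) : ℤ) + 16 * (walk 15 16 1 1 (k + 1) : ℤ)) =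
        15 * (17 * (walk 15 16 1 1 (k + 2) : ℤ)) + 16 * (17 * (walk 15 16 1 1 (k + 1) : ℤ)) := by
      ring
    rw [this, h1, h2]
    ring

/-- The number `n_j`, reached by the `(15,16)`-walk from `1, 1` at index `4 (j + 1)`. -/
def N (j : ℕ) : ℕ := walk 15 16 1 1 (4 * (j + 1))

/-- The `(3,4)`-walks do not reach `n_j` at the index `4 (j + 1) + 1`. -/
theorem not_reached (j a b : ℕ) (ha : 1 ≤ a) (hb : 1 ≤ b) :
    walk 3 4 a b (4 * (j + 1) + 1) ≠ N j := by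
  intro h
  have h1 := (walk34 a b (4 * (j + 1))).1
  have h2 := (walk1516 (4 * j + 3)).1
  rw [h] at h1
  have h3 : N j = walk 15 16 1 1 (4 * j + 3 + 1) := rfl
  rw [← h3] at h2
  have e1 : ((-1 : ℤ)) ^ (4 * (j + 1)) = 1 := by
    rw [pow_mul]; norm_num
  have e2 : ((-1 : ℤ)) ^ (4 * j + 3) = -1 := by
    rw [pow_add, pow_mul]; norm_num
  rw [e1] at h1
  rw [e2] at h2
  -- q = 4 ^ (4 (j+1))
  obtain ⟨q, hq⟩ : ∃ q : ℤ, q = 256 ^ (j + 1) := ⟨_, rfl⟩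
  have hq1 : (4 : ℤ) ^ (4 * (j + 1)) = q := by
    rw [hq, pow_mul]; norm_num
  have hq2 : 16 * (16 : ℤ) ^ (4 * j + 3) = q * q := by
    rw [hq, ← mul_pow, ← pow_succ', show 4 * j + 3 + 1 = 4 * (j + 1) by ring, pow_mul]
    norm_num
  have hq3 : 256 ≤ q := by
    rw [hq]
    calc (256 : ℤ) = 256 ^ 1 := by norm_num
      _ ≤ 256 ^ (j + 1) := pow_le_pow_right₀ (by norm_num) (by omega)
  have hq4 : ∃ c : ℤ, q = 136 * c + 120 := by
    rw [hq]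
    clear * -
    induction j with
    | zero => exact ⟨1, by norm_num⟩
    | succ j ih =>
      obtain ⟨c, hc⟩ := ih
      refine ⟨256 * c + 225, ?_⟩
      rw [pow_succ, hc]; ring
  obtain ⟨c, hc⟩ := hq4
  rw [hq1] at h1
  set X : ℤ := (a : ℤ) + b with hX
  set Y : ℤ := 4 * (a : ℤ) - b with hY
  have hXY1 : -X < Y := by rw [hX, hY]; have : (1 : ℤ) ≤ a := by exact_mod_cast ha
                           linarith
  have hXY2 : Y < 4 * X := by rw [hX, hY]; have : (1 : ℤ) ≤ b := by exact_mod_cast hb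
                              linarith
  -- 136 (X q + Y) = 5 q^2 - 600
  have key : 136 * (X * q + Y) = 5 * (q * q) - 600 := by
    have : 136 * (X * q + Y) = 8 * 17 * (X * q + Y * 1) := by ring
    rw [this, ← h1, ← hq2]
    linarith
  obtain ⟨t, ht⟩ : ∃ t : ℤ, t = 5 * q - 136 * X := ⟨_, rfl⟩
  have key2 : 136 * Y = t * q - 600 := by rw [ht]; linarith
  have ht2 : ∃ d : ℤ, t = 136 * d + 56 := ⟨5 * c - X + 4, by rw [ht, hc]; ring⟩
  obtain ⟨d, hd⟩ := ht2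
  rcases lt_or_ge d 0 with hneg | hpos
  · -- t ≤ -80
    have ht3 : t ≤ -80 := by omega
    have : 136 * Y > -(5 * q - t) := by linarith
    nlinarith
  · have ht3 : 56 ≤ t := by omega
    have : 136 * Y < 4 * (5 * q - t) := by linarith
    nlinarith

theorem s34_le (j : ℕ) : s (3, 4) (N j) ≤ 4 * (j + 1) := by
  unfold s
  refine csSup_le' ?_
  rintro l ⟨-, a₁, a₂, h₁, h₂, hw⟩
  simp only at hw
  by_contra hl
  push Not at hl
  obtain ⟨i, rfl⟩ : ∃ i, l = i + (4 * (j + 1)) + 1 := ⟨l - (4 * (j + 1)) - 1, by omega⟩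
  have h := (walk_shift 3 4 a₁ a₂ i (4 * (j + 1))).1
  rw [hw] at h
  exact not_reached j _ _ (walk_pos (by norm_num) h₁ h₂ i).1
    (walk_pos (by norm_num) h₁ h₂ i).2 h

theorem le_s1516 (j : ℕ) : 4 * (j + 1) ≤ s (15, 16) (N j) := by
  unfold s
  refine le_csSup (bdd (15, 16) (by norm_num) (by norm_num) _) ?_
  exact ⟨by omega, 1, 1, le_rfl, le_rfl, rfl⟩

theorem γ34 : γ (3, 4) = 4 := by
  unfold γ
  have : √(((3 : ℕ) : ℝ) ^ 2 + 4 * ((4 : ℕ) : ℝ)) = 5 := by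
    rw [show (((3 : ℕ) : ℝ) ^ 2 + 4 * ((4 : ℕ) : ℝ)) = 5 ^ 2 by norm_num]
    exact Real.sqrt_sq (by norm_num)
  simp only
  rw [this]; norm_num

theorem γ1516 : γ (15, 16) = 16 := by
  unfold γ
  have : √(((15 : ℕ) : ℝ) ^ 2 + 4 * ((16 : ℕ) : ℝ)) = 17 := by
    rw [show (((15 : ℕ) : ℝ) ^ 2 + 4 * ((16 : ℕ) : ℝ)) = 17 ^ 2 by norm_num]
    exact Real.sqrt_sq (by norm_num)
  simp only
  rw [this]; norm_num

theorem ΓT₀ : Γ T₀ = 4 := by
  unfold Γ T₀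
  rw [Set.image_pair, csInf_pair, γ34, γ1516]
  norm_num

theorem N_strictMono : StrictMono N := by
  refine strictMono_nat_of_lt_succ fun j => ?_
  have h : ∀ k : ℕ, walk 15 16 1 1 (k + 2) < walk 15 16 1 1 (k + 3) := fun k =>
    walk_lt (by norm_num) (by norm_num) le_rfl le_rfl k
  have h1 := h (4 * j + 2)
  have h2 := h (4 * j + 3)
  have h3 := h (4 * j + 4)
  have h4 := h (4 * j + 5)
  show walk 15 16 1 1 (4 * j + 2 + 2) < walk 15 16 1 1 (4 * j + 5 + 3)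
  exact lt_trans h1 (lt_trans h2 (lt_trans h3 h4))

theorem mem_SSet (j : ℕ) : (15, 16) ∈ SSet T₀ (N j) := by
  refine ⟨by simp [T₀], ?_⟩
  unfold sMax T₀
  rw [Set.image_pair, csSup_pair]
  exact (max_eq_right (le_trans (s34_le j) (le_s1516 j))).symm

theorem infinite_set : {n : ℕ | 1 ≤ n ∧ (15, 16) ∈ SSet T₀ n}.Infinite := by
  refine Set.infinite_of_injective_forall_mem N_strictMono.injective fun j => ⟨?_, mem_SSet j⟩
  exact (walk_pos (by norm_num) le_rfl le_rfl (4 * j + 3)).1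

/-- The pair `(15,16)` of `T₀ = {(3,4), (15,16)}` has `γ = 16 = Γ_T ^ 2`, so it is not in `R'_T`,
but it attains the maximum `s_T(n)` for infinitely many `n`.  Hence it is false that, for every
nonempty set `T` of pairs of coprime positive integers and every pair in `T`, the pair is in
`S_T(n)` for infinitely many `n` if and only if it is in `R'_T`. -/
theorem result :
    (Γ T₀ = 4 ∧ γ (15, 16) = Γ T₀ ^ 2 ∧ (15, 16) ∉ R' T₀ ∧
      {n : ℕ | 1 ≤ n ∧ (15, 16) ∈ SSet T₀ n}.Infinite) ∧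
    ¬ ∀ T : Set (ℕ × ℕ), T.Nonempty → (∀ p ∈ T, 0 < p.1 ∧ 0 < p.2 ∧ Nat.Coprime p.1 p.2) →
      ∀ p ∈ T, ({n : ℕ | 1 ≤ n ∧ p ∈ SSet T n}.Infinite ↔ p ∈ R' T) := by
  have hnot : (15, 16) ∉ R' T₀ := by
    rintro ⟨-, h⟩
    rw [ΓT₀, γ1516] at h
    norm_num at h
  refine ⟨⟨ΓT₀, ?_, hnot, infinite_set⟩, fun h => ?_⟩
  · rw [ΓT₀, γ1516]; norm_num
  · have := h T₀ ⟨(3, 4), by simp [T₀]⟩ ?_ (15, 16) (by simp [T₀])
    · exact hnot (this.1 infinite_set)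
    · intro p hp
      simp only [T₀, Set.mem_insert_iff, Set.mem_singleton_iff] at hp
      rcases hp with rfl | rfl <;> norm_num

end Pool.Agent.Results.MP_c389b3_nt.BoundaryPair
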